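import Pool.Agent.Helper686_FJ.Cur5
import Pool.Agent.Helper686_FJ.Wh

/-!
# `GL₂` over the coordinate rings of curves with one place at infinity

`C` is any class of groups with the closure properties `ClosedE C` which contains the groups `F ⋊ ℤ` for
all free groups `F` and all solvable groups. All this is published for the class of groups which satisfy
the Full Farrell-Jones Conjecture.

Let `A` be a commutative domain with a degree function `d : A → ℕ`: `d (a b) = d a + d b` for non-zero
`a`, `b`, and `d (a + b) ≤ max (d a) (d b)`. Then `A₀ = {d = 0}` is a subring. For instance, `A` may be the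
coordinate ring of an affine curve with one place at infinity over a field `A₀ = K`. Let `ε : A → B` be a
homomorphism to a commutative ring which is injective on `A₀`, for instance the value at a point.

1. If `H` is a subgroup of `GL₂(B)` which is in `C`, then the preimage of `H` in `GL₂(A)` is in `C`. In
   particular, the congruence subgroup of `GL₂(A)` with respect to the kernel of `ε` is in `C`.
2. If `GL₂(B)` is in `C`, then `GL₂(A[σ])` is in `C` for all sets `σ` of variables.
3. Let `R` be a domain, `f`, `h ∈ R[x]` with `deg f` odd, `2 deg h < deg f`, and `(a, b)` a point over `R` of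
   the curve `y² = f(x) + h(x) y`. Then `GL₂(R[x, y, σ] / (y² - h y - f))` is in `C` if and only if `GL₂(R)` is
   in `C`. For `R = ℤ` it is in `C`.

Outline of the proof. The degree function defines a discrete valuation on the field of fractions `F` of
`A`, and `GL₂(A)` acts on its tree `GL₂(F) / F^× GL₂(O)` without inversions. The trace and the determinant of
an element of the stabilizer of a vertex are in `A₀`. If it is in the kernel of `GL₂(A) → GL₂(B)`, then they
are `2` and `1`, because `ε` is injective on `A₀`; so the stabilizers in the kernel consist of unipotent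
matrices, and they are abelian. The theorem on actions on trees with a homomorphism which meets the
stabilizers in abelian groups (`H694`) applies. For (2), `GL₂(A[σ])` is in `C` if and only if `GL₂(A)` is, by
`PolynomialMatrices`. For (3) the degree function is the degree of the norm to `R[x]`.
-/

set_option autoImplicit false

namespace Pool.Agent.Results.MP_490288_al.CurvesOnePlace

open Pool.Agent.Helper686_FJ Pool.Agent.Helper686_FJ.Cur Pool.Agent.Y110.FJ
open Pool.Agent.R684.FP (FbC)
open Pool.Agent.H694.TR (Sol)
open Polynomial

theorem result (C : ∀ (G : Type) [Group G], Prop) (hC : ClosedE C) (hF : FbC C) (hS : Sol C) :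
    (∀ (A B : Type) [CommRing A] [IsDomain A] [CommRing B] (d : A → ℕ) (ε : A →+* B), IsDeg d →
      (∀ a, d a = 0 → ε a = 0 → a = 0) →
      (∀ H : Subgroup (Matrix (Fin 2) (Fin 2) B)ˣ, C H → C (H.comap (glm ε))) ∧
      (InC C B → ∀ σ : Type, InC C (MvPolynomial σ A))) ∧
    (∀ (R σ : Type) [CommRing R] [IsDomain R] (f h : R[X]) (a b : R), Odd f.natDegree →
      2 * h.natDegree < f.natDegree → b * b = f.eval a + h.eval a * b →
      (InC C (MvPolynomial σ (QuadraticAlgebra R[X] f h)) ↔ InC C R)) ∧
    InC C ℤ := by
  refine ⟨?_, ?_, GLP.g2_int hC hF hS⟩
  · intro A B _ _ _ d ε hd hε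
    exact ⟨fun H hH => curve hC hF hS hd ε hε H hH, fun hB σ =>
      (GLP.g2_mv_iff hC hF hS σ A).2 (curve_top hC hF hS hd ε hε hB)⟩
  · intro R σ _ _ f h a b hf hh hab
    have := hyp_domain hf hh
    exact (GLP.g2_mv_iff hC hF hS σ _).trans (hyp_iff hC hF hS hf hh a b hab)

end Pool.Agent.Results.MP_490288_al.CurvesOnePlace
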