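import Pool.Agent.Helper687_GP.Induct
import Pool.Agent.Helper687_Borel.Surf

/-!
# Extensions whose kernels are graph products of cyclic groups

`C` is a class of groups with the closure properties `ClosedE C` which contains all groups `F ⋊ ℤ` with `F` free
(`FbC C`) and all solvable groups (`SolvIn C`). This is known for the class of groups which satisfy the Full
Farrell-Jones Conjecture. `GP T n` is the graph product over a finite graph `T` of the cyclic groups `ℤ / n v`,
where `ℤ / 0 = ℤ`; for example right-angled Artin groups (`n = 0`) and right-angled Coxeter groups (`n = 2`), and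
all graph products of finitely generated abelian groups are of this form. `El T n` is the group of automorphisms
of `GP T n` which is generated by

* the symmetries of the labelled graph,
* the automorphisms which map every generator `v` to a generator of a conjugate of the cyclic group of `v`
  (for example partial conjugations, inversions and the automorphisms of the vertex groups),
* the transvections `v ↦ v w ^ q` and `v ↦ w ^ q v`, where `n v = 0` and all neighbours of `v` are neighbours of
  `w` or equal to `w`, or `v` and `w` are adjacent, `n v ≠ 0`, `n w ≠ 0` and the neighbours of `v` are neighbours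
  of `w` or equal to `w`.

By theorems of Laurence (`n = 0`) and of Corredor and Gutiérrez, `El T n` is the automorphism group of `GP T n` if
every `n v` is `0` or a power of a prime.

1. All mapping tori `GP T n ⋊ ℤ` of automorphisms in `El T n` are in `C`. If `G` has a normal subgroup
   `N ≅ GP T n` on which the elements of `G` act by automorphisms in `El T n`, and `G ⧸ N` is in `C`, then `G` is
   in `C`.
2. If `El T n` is the automorphism group of `GP T n`, this holds for all automorphisms and all groups `G` with a
   normal subgroup `N ≅ GP T n` and `G ⧸ N` in `C`.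
3. The same holds for all groups `N` which are obtained from such graph products by extensions with quotients
   which are nonabelian free groups of finite rank or closed oriented surface groups of genus at least two, and by
   finite extensions.

Outline of the proof of (1). A power of an automorphism in `El T n` is a product of automorphisms of the second
and third kind. These preserve the normal closure of every maximal class `M` of vertices with respect to the
domination preorder. This normal subgroup is the kernel of the retraction to the graph product over the complement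
of `M`, it is a free product of copies of the graph product over `M`, and the latter is free or abelian. The kernel
of the homomorphism which identifies the copies is free.
-/

set_option autoImplicit false

namespace Pool.Agent.Results.MP_490288_al.GraphProductKernels

open Pool.Agent.Helper687_GP
open Pool.Agent.Helper687_Borel (MT SolvIn Tower tower_mt ext_top mt_equiv spread_free spread_surf)
open Pool.Agent.Y110.FJ (ClosedE)
open Pool.Agent.R684.FP (FbC)
open Pool.Agent.Y473.MC (Surf)

section

variable {V N : Type} [Group N] (T : SimpleGraph V) (n : V → ℕ) (s : V → N) (f : N → N)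

/-- symmetries of the labelled graph -/
def Symm : Prop := ∃ σ : T ≃g T, (∀ v, n (σ v) = n v) ∧ ∀ v, f (s v) = s (σ v)

/-- every generator is mapped to a generator of a conjugate of its cyclic subgroup -/
def ConjGen : Prop :=
  ∀ v, ∃ x, Subgroup.zpowers (f (s v)) = Subgroup.zpowers (x * s v * x⁻¹)

/-- transvections -/
def Transv : Prop :=
  ∃ (v w : V) (q : ℤ), v ≠ w ∧ Dom T n v w ∧ (f (s v) = s v * s w ^ q ∨ f (s v) = s w ^ q * s v) ∧
    ∀ u, u ≠ v → f (s u) = s u

/-- elementary automorphisms -/
def Elementary : Prop := Symm T n s f ∨ ConjGen s f ∨ Transv T n s f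

/-- the group generated by the elementary automorphisms -/
def ElG : Subgroup (MulAut N) := Subgroup.closure {α | Elementary T n s fun x => α x}

end

/-- the group generated by the elementary automorphisms of the graph product -/
def El {V : Type} (T : SimpleGraph V) (n : V → ℕ) : Subgroup (MulAut (GP T n)) := ElG T n (gen T n)

/-- all automorphisms are in `S` -/
def All {N : Type} [Group N] (S : Subgroup (MulAut N)) : Prop := ∀ α, α ∈ S

/-- the mapping torus of `α` is in `C` -/
def Torus (C : ∀ (G : Type) [Group G], Prop) {N : Type} [Group N] (α : MulAut N) : Prop :=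
  C (N ⋊[zpowersHom (MulAut N) α] Multiplicative ℤ)

/-- the mapping tori of the automorphisms in `S` are in `C` -/
def Tori (C : ∀ (G : Type) [Group G], Prop) {N : Type} [Group N] (S : Subgroup (MulAut N)) : Prop :=
  ∀ α ∈ S, Torus C α

/-- conjugation with `g` is `α` -/
def ConjBy {N G : Type} [Group G] (f : N → G) (g : G) (α : N → N) : Prop :=
  ∀ x, f (α x) = g * f x * g⁻¹

/-- `K ≅ N`, and `G` acts on `K` by automorphisms in `S` -/
def Acts {N G : Type} [Group N] [Group G] (S : Subgroup (MulAut N)) (K : Subgroup G) : Prop :=
  ∃ f : N →* G, Function.Injective f ∧ f.range = K ∧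
    ∀ g : G, ∃ α ∈ S, ConjBy (fun x => f x) g fun x => α x

/-- all mapping tori of `N` are in `C`, and all extensions of groups in `C` by `N` are in `C` -/
def Kern (C : ∀ (G : Type) [Group G], Prop) (N : Type) [Group N] : Prop :=
  MT C N ∧ ∀ (G : Type) [Group G] (K : Subgroup G) [K.Normal], Nonempty (N ≃* K) → C (G ⧸ K) → C G

/-- the closed oriented surface groups of genus at least two and the free groups of finite rank at least
two -/
def FreeOrSurf (S : Type) [Group S] : Prop :=
  (∃ r, 2 ≤ r ∧ Nonempty (S ≃* FreeGroup (Fin r))) ∨ ∃ g, 2 ≤ g ∧ Nonempty (S ≃* Surf g)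

/-- graph products whose automorphisms are products of elementary ones -/
def Base (N : Type) [Group N] : Prop :=
  ∃ (V : Type) (_ : Finite V) (T : SimpleGraph V) (n : V → ℕ), All (El T n) ∧ Nonempty (GP T n ≃* N)

/-- virtually iterated extensions of free groups and surface groups on top of such a graph product -/
inductive PolyGP : ∀ (N : Type) [Group N], Prop
  | base (N : Type) [Group N] : Base N → PolyGP N
  | step (N : Type) [Group N] (K : Subgroup N) [K.Normal] : PolyGP K → FreeOrSurf (N ⧸ K) → PolyGP N
  | fin (N : Type) [Group N] (K : Subgroup N) [K.FiniteIndex] : PolyGP K → PolyGP N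

theorem el_eq {V : Type} (T : SimpleGraph V) (n : V → ℕ) :
    El T n = Subgroup.closure {α | Elem T n α} := rfl

theorem kern {C : ∀ (G : Type) [Group G], Prop} (hC : ClosedE C) {N : Type} [Group N]
    (h : MT C N) : Kern C N := by
  refine ⟨h, ?_⟩
  rintro G _ K _ ⟨e⟩ hQ
  exact ext_top hC K (mt_equiv hC e h) hQ

theorem tori {C : ∀ (G : Type) [Group G], Prop} (hC : ClosedE C) (hF : FbC C) (hS : SolvIn C)
    {V : Type} [Finite V] (T : SimpleGraph V) (n : V → ℕ) : Tori C (El T n) := by
  intro α hα
  rw [el_eq] at hα
  exact gp_torus hC hF hS V T n α hα

theorem tower {C : ∀ (G : Type) [Group G], Prop} (hC : ClosedE C) (hF : FbC C) (hS : SolvIn C)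
    (hs : ∀ g, 2 ≤ g → MT C (Surf g)) {N : Type} [Group N] (h : PolyGP N) : Tower C N := by
  induction h with
  | base N h =>
    obtain ⟨V, _, T, n, hT, ⟨e⟩⟩ := h
    refine Tower.base N ?_ (mt_equiv hC e fun α => tori hC hF hS T n α (hT α))
    have := gp_fg T n
    exact Group.fg_of_surjective (f := e.toMonoidHom) e.surjective
  | step N K _ hNK ih =>
    rcases hNK with ⟨r, hr, ⟨e⟩⟩ | ⟨g, hg, ⟨e⟩⟩
    · exact Tower.step N K ih ((spread_free r hr).equiv e.symm)
        (mt_equiv hC e.symm (hF (Fin r)))
    · exact Tower.step N K ih ((spread_surf g hg).equiv e.symm)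
        (mt_equiv hC e.symm (hs g hg))
  | fin N K _ ih => exact Tower.fin N K ih

theorem result (C : ∀ (G : Type) [Group G], Prop) (hC : ClosedE C) (hF : FbC C) (hS : SolvIn C) :
    -- 1. elementary automorphisms
    (∀ (V : Type) [Finite V] (T : SimpleGraph V) (n : V → ℕ), Tori C (El T n) ∧
      (∀ (G : Type) [Group G] (K : Subgroup G) [K.Normal], Acts (El T n) K → C (G ⧸ K) → C G) ∧
    -- 2. all automorphisms
      (All (El T n) → Kern C (GP T n))) ∧
    -- 3. iterated extensions
    ((∀ g, 2 ≤ g → MT C (Surf g)) → ∀ (N : Type) [Group N], PolyGP N → Kern C N) := by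
  refine ⟨?_, ?_⟩
  · intro V _ T n
    refine ⟨tori hC hF hS T n, ?_, fun hT => kern hC fun α => tori hC hF hS T n α (hT α)⟩
    rintro G _ K hK ⟨f, hf, hr, hG⟩ hQ
    subst hr
    refine gp_ext_elem hC hF hS V T n G f hf hQ fun g => ?_
    obtain ⟨α, hα, h⟩ := hG g
    rw [el_eq] at hα
    exact ⟨α, hα, h⟩
  · intro hs N _ hN
    exact kern hC (tower_mt hC (tower hC hF hS hs hN)).2

end Pool.Agent.Results.MP_490288_al.GraphProductKernels
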